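import Mathlib
import Pool.Agent.Helper83.HL.St

set_option autoImplicit false

namespace Pool.Agent.Helper80.HL

open Pool.Agent.Helper83.HL

theorem mH : StH := by
  refine ⟨64, by norm_num, ?_⟩
  intro m hm
  have hmR : (64 : ℝ) ≤ m := by exact_mod_cast hm
  have hlog : 0 < Real.log m := Real.log_pos (by linarith)
  have h1 := Chebyshev.pi_ge m
  refine le_trans ?_ h1
  rw [div_le_div_iff₀ (by positivity) hlog]
  have h2 : (0.6931471803 : ℝ) < Real.log 2 := Real.log_two_gt_d9
  have h2' : Real.log 2 < 0.6931471808 := Real.log_two_lt_d9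
  have h3 : Real.log ((m : ℝ) + 1) ≤ 4 * Real.log 2 + ((m : ℝ) + 1) / 16 - 1 := by
    have h4 := Real.log_le_sub_one_of_pos (show (0 : ℝ) < ((m : ℝ) + 1) / 16 by positivity)
    rw [Real.log_div (by positivity) (by norm_num)] at h4
    have h5 : Real.log 16 = 4 * Real.log 2 := by
      rw [show (16 : ℝ) = 2 ^ 4 by norm_num, Real.log_pow]; norm_num
    linarith
  have h6 : (m : ℝ) / 2 ≤ m * Real.log 2 - Real.log ((m : ℝ) + 1) := by nlinarith
  nlinarith

end Pool.Agent.Helper80.HL
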